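/-
MP_fed171_al: the inequality `β₁ ≤ nrk - 1` for torsion-free groups is equivalent to the
boundedness of `β₁` on the torsion-free groups of normal rank one, and to a rigidity property of
cocycles.
-/
import Pool.Agent.Lib.MP_fed171_al.FD.Short
import Pool.Agent.Lib.MP_fed171_al.FD.Bridge

open Pool.Agent.Lib.MP_fed171_al.Short

namespace Pool.Agent.Results.MP_fed171_al.BoundedImpliesSharp

/-- `Γ` runs through the finitely generated torsion-free groups; `betti Γ` is the first L2-Betti
number, `nrk Γ` the normal rank. The following are equivalent: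
1. `betti Γ ≤ nrk Γ - 1` for all nontrivial `Γ` (the question);
2. some function of `nrk Γ` bounds `betti Γ` for all nontrivial `Γ`;
3. for one `n ≥ 1`, `betti` is bounded on the groups of normal rank `n`;
4. `betti` is bounded on the groups of normal rank one without nontrivial finite quotients;
5. `betti Γ ≤ betti C` for every nontrivial finitely generated subgroup `C` whose normal closure
   is `Γ`;
6. a cocycle of `Γ` with values in `ℓ²(Γ)` which vanishes on a finite set of normal generators of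
   `Γ` vanishes;
7. the same for one normal generator. -/
theorem result : List.TFAE [
    ∀ (Γ : Type) [Group Γ] [Nontrivial Γ], FinGen Γ → TorsionFree Γ →
      betti Γ ≤ (nrk Γ : ℝ) - 1,
    ∃ f : ℕ → ℝ, ∀ (Γ : Type) [Group Γ] [Nontrivial Γ], FinGen Γ → TorsionFree Γ →
      betti Γ ≤ f (nrk Γ),
    ∃ (n : ℕ) (C : ℝ), 0 < n ∧ ∀ (Γ : Type) [Group Γ] [Nontrivial Γ], FinGen Γ →
      TorsionFree Γ → nrk Γ = n → betti Γ ≤ C,
    ∃ C : ℝ, ∀ (Γ : Type) [Group Γ] [Nontrivial Γ], FinGen Γ → TorsionFree Γ → nrk Γ = 1 →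
      NoFin Γ → betti Γ ≤ C,
    ∀ (Γ : Type) [Group Γ] [Nontrivial Γ], FinGen Γ → TorsionFree Γ →
      ∀ C : Subgroup Γ, FinGen C → C ≠ ⊥ → Subgroup.normalClosure (C : Set Γ) = ⊤ →
        betti Γ ≤ betti C,
    ∀ (Γ : Type) [Group Γ], FinGen Γ → TorsionFree Γ → ∀ (k : ℕ) (g : Fin k → Γ),
      Subgroup.normalClosure (Set.range g) = ⊤ → ∀ b : Γ → L2 Γ, IsCocycle b →
        (∀ l, b (g l) = 0) → ∀ x, b x = 0,
    ∀ (Γ : Type) [Group Γ], FinGen Γ → TorsionFree Γ → ∀ t : Γ,
      Subgroup.normalClosure {t} = ⊤ → ∀ b : Γ → L2 Γ, IsCocycle b → b t = 0 →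
        ∀ x, b x = 0] :=
  Pool.Agent.Lib.MP_fed171_al.FD.final_short

end Pool.Agent.Results.MP_fed171_al.BoundedImpliesSharp
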