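/-
MP_fed171_al: the inequality `β₁ ≤ nrk - 1` and rigidity of cocycles for classes of groups which are
closed under limits and under extensions with amenable locally indicable quotients, and contain
all residually (finite p-)groups.
-/
import Pool.Agent.Lib.MP_fed171_al.FD.Short
import Pool.Agent.Lib.MP_fed171_al.RP.Cls
import Pool.Agent.Lib.MP_fed171_al.RP.All

open Pool.Agent.Lib.MP_fed171_al.Short Pool.Agent.Lib.MP_fed171_al.RP

namespace Pool.Agent.Results.MP_fed171_al.LimitsAndExtensions

/-- `betti Γ` is the first L2-Betti number, `nrk Γ` the normal rank. For the nonempty sets `P` of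
primes let `T_P` be the smallest classes of groups such that `T_P` contains the trivial groups, is
closed under limits and under extensions with amenable quotients in which every nontrivial finitely
generated subgroup has, for every `p ∈ P`, a nontrivial homomorphism to the group with `p` elements,
and is contained in `T_P'` if `P ⊆ P'`. Let `Γ` be an infinite finitely generated group in `T_P`
(nontrivial torsion-free groups are infinite). Then `betti Γ ≤ nrk Γ - 1`, the inequality asked for
in Q1. More generally, let `H` be a subgroup such that, for every `p ∈ P`, each homomorphism of `Γ` to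
the group with `p` elements which is trivial on `H` is trivial. Then all cocycles of `Γ` with
values in `ℓ²(Γ)` which vanish on `H` vanish, `betti Γ ≤ n - 1` if `H` is generated by `n` elements, and
`betti Γ ≤ betti H` if `H` is finitely generated and infinite. -/
theorem result (P : Set ℕ) (hP : PrimeSet P) (Γ : Type) [Group Γ] [Infinite Γ] (hΓ : InT P Γ)
    (hf : FinGen Γ) :
    betti Γ ≤ (nrk Γ : ℝ) - 1 ∧
    ∀ H : Subgroup Γ,
      (∀ p ∈ P, ∀ χ : Γ →* Multiplicative (ZMod p), (∀ h ∈ H, χ h = 1) → χ = 1) →
      (∀ b : Γ → L2 Γ, IsCocycle b → (∀ h ∈ H, b h = 0) → ∀ x, b x = 0) ∧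
      (∀ (n : ℕ) (g : Fin n → Γ), Subgroup.closure (Set.range g) = H →
        betti Γ ≤ (n : ℝ) - 1) ∧
      (FinGen H → Infinite H → betti Γ ≤ betti H) :=
  final t_base p_lim t_ext t_inj p_fox P hP Γ hΓ hf

end Pool.Agent.Results.MP_fed171_al.LimitsAndExtensions
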